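import Mathlib

/-!
Reciprocity obstructions for the equation `∑ 1/x_i + 1/∏ x_i = 1`.
Helper file for problem MP_6434ae_nt.
-/

open Finset

namespace Pool.Agent.Helper1.Recip

open scoped NumberTheorySymbols

variable {ι : Type*} [DecidableEq ι]

/-- number of indices with `x i` congruent to three modulo four -/
def nthree (T : Finset ι) (x : ι → ℕ) : ℕ := (T.filter fun i => x i % 4 = 3).card

/-- number of indices with `x i` congruent to one modulo four -/
def none1 (T : Finset ι) (x : ι → ℕ) : ℕ := (T.filter fun i => x i % 4 = 1).card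

theorem nthree_insert {T : Finset ι} {k : ι} (hk : k ∉ T) (x : ι → ℕ) :
    nthree (insert k T) x = nthree T x + (if x k % 4 = 3 then 1 else 0) := by
  unfold nthree
  rw [filter_insert]
  split_ifs with h
  · rw [card_insert_of_notMem]
    simp [hk]
  · simp

theorem card_eq_add (T : Finset ι) (x : ι → ℕ) (hodd : ∀ i ∈ T, Odd (x i)) :
    T.card = nthree T x + none1 T x := by
  unfold nthree none1
  rw [← card_union_of_disjoint]
  · congr 1
    ext i
    simp only [mem_union, mem_filter]
    constructor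
    · intro hi
      have := Nat.odd_iff.mp (hodd i hi)
      have h : x i % 4 = 3 ∨ x i % 4 = 1 := by omega
      tauto
    · tauto
  · rw [disjoint_left]
    intro i hi hi'
    simp only [mem_filter] at hi hi'
    omega

/-- The sum and the product of odd numbers modulo eight. -/
theorem sum_prod (T : Finset ι) (x : ι → ℕ) (hodd : ∀ i ∈ T, Odd (x i)) :
    (nthree T x % 2 = 0 → (∏ i ∈ T, x i) % 4 = 1 ∧
      (∑ i ∈ T, x i + ∏ i ∈ T, x i) % 8 = (T.card + 6 * nthree T x + 1) % 8) ∧
    (nthree T x % 2 = 1 → (∏ i ∈ T, x i) % 4 = 3 ∧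
      (∑ i ∈ T, x i + ∏ i ∈ T, x i) % 8 = (T.card + 6 * nthree T x + 7) % 8) := by
  induction T using Finset.induction_on with
  | empty => simp [nthree]
  | insert k T hk ih =>
    have hodd' : ∀ i ∈ T, Odd (x i) := fun i hi => hodd i (mem_insert_of_mem hi)
    have hk' := Nat.odd_iff.mp (hodd k (mem_insert_self k T))
    obtain ⟨ih1, ih2⟩ := ih hodd'
    rw [nthree_insert hk, prod_insert hk, sum_insert hk, card_insert_of_notMem hk]
    generalize nthree T x = a at *
    generalize (∏ i ∈ T, x i) = N at *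
    generalize (∑ i ∈ T, x i) = S at *
    generalize T.card = t at *
    have h8 : x k % 8 = 1 ∨ x k % 8 = 3 ∨ x k % 8 = 5 ∨ x k % 8 = 7 := by omega
    obtain ⟨q, hq⟩ : ∃ q, x k = 8 * q + x k % 8 := ⟨x k / 8, by omega⟩
    have hN : N % 8 = 1 ∨ N % 8 = 3 ∨ N % 8 = 5 ∨ N % 8 = 7 := by
      rcases Nat.mod_two_eq_zero_or_one a with ha | ha
      · have := (ih1 ha).1; omega
      · have := (ih2 ha).1; omega
    obtain ⟨r, hr⟩ : ∃ r, N = 8 * r + N % 8 := ⟨N / 8, by omega⟩
    have hprod : (x k * N) % 8 = ((x k % 8) * (N % 8)) % 8 := Nat.mul_mod _ _ _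
    rcases Nat.mod_two_eq_zero_or_one a with ha | ha
    · have h1 := (ih1 ha).1
      have h2 := (ih1 ha).2
      rcases h8 with h | h | h | h <;> rcases hN with h' | h' | h' | h' <;>
        rw [h, h'] at hprod <;> constructor <;> intro h3 <;>
        (have h4 : x k % 4 = 3 ∨ x k % 4 = 1 := by omega) <;>
        split_ifs at * <;> constructor <;> omega
    · have h1 := (ih2 ha).1
      have h2 := (ih2 ha).2
      rcases h8 with h | h | h | h <;> rcases hN with h' | h' | h' | h' <;>
        rw [h, h'] at hprod <;> constructor <;> intro h3 <;>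
        (have h4 : x k % 4 = 3 ∨ x k % 4 = 1 := by omega) <;>
        split_ifs at * <;> constructor <;> omega

/-- Jacobi symbol of a product in the second argument. -/
theorem prod_right (a : ℤ) (T : Finset ι) (x : ι → ℕ) (hodd : ∀ i ∈ T, Odd (x i)) :
    J(a | ∏ i ∈ T, x i) = ∏ i ∈ T, J(a | x i) := by
  induction T using Finset.induction_on with
  | empty => simp
  | insert k T hk ih =>
    have hodd' : ∀ i ∈ T, Odd (x i) := fun i hi => hodd i (mem_insert_of_mem hi)
    have h1 : x k ≠ 0 := (hodd k (mem_insert_self k T)).pos.ne'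
    have h2 : ∏ i ∈ T, x i ≠ 0 := prod_ne_zero_iff.mpr fun i hi => (hodd' i hi).pos.ne'
    rw [prod_insert hk, prod_insert hk, jacobiSym.mul_right' _ h1 h2, ih hodd']

/-- Jacobi symbol of a product in the first argument. -/
theorem prod_left (b : ℕ) (T : Finset ι) (x : ι → ℕ) :
    J(((∏ i ∈ T, x i : ℕ) : ℤ) | b) = ∏ i ∈ T, J((x i : ℤ) | b) := by
  induction T using Finset.induction_on with
  | empty => simp
  | insert k T hk ih =>
    rw [prod_insert hk, prod_insert hk, Nat.cast_mul, jacobiSym.mul_left, ih]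

/-- Quadratic reciprocity for a whole family of pairwise coprime odd numbers. -/
theorem family (T : Finset ι) (x : ι → ℕ) (hodd : ∀ i ∈ T, Odd (x i))
    (hcop : ∀ i ∈ T, ∀ j ∈ T, i ≠ j → Nat.Coprime (x i) (x j)) :
    ∏ i ∈ T, ∏ j ∈ T.erase i, J((x j : ℤ) | x i) =
      (-1) ^ (nthree T x * (nthree T x - 1) / 2) := by
  induction T using Finset.induction_on with
  | empty => simp [nthree]
  | insert k T hk ih =>
    have hodd' : ∀ i ∈ T, Odd (x i) := fun i hi => hodd i (mem_insert_of_mem hi)
    have hcop' : ∀ i ∈ T, ∀ j ∈ T, i ≠ j → Nat.Coprime (x i) (x j) :=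
      fun i hi j hj => hcop i (mem_insert_of_mem hi) j (mem_insert_of_mem hj)
    have hko := hodd k (mem_insert_self k T)
    rw [prod_insert hk, erase_insert hk]
    have h1 : ∏ i ∈ T, ∏ j ∈ (insert k T).erase i, J((x j : ℤ) | x i) =
        ∏ i ∈ T, (J((x k : ℤ) | x i) * ∏ j ∈ T.erase i, J((x j : ℤ) | x i)) := by
      refine prod_congr rfl fun i hi => ?_
      have hne : k ≠ i := fun h => hk (h ▸ hi)
      rw [erase_insert_of_ne hne, prod_insert]
      exact fun h => hk (mem_of_mem_erase h)
    rw [h1, prod_mul_distrib, ih hodd' hcop', ← mul_assoc, ← prod_mul_distrib]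
    have h2 : ∏ i ∈ T, (J((x i : ℤ) | x k) * J((x k : ℤ) | x i)) =
        ∏ i ∈ T, (if x k % 4 = 3 ∧ x i % 4 = 3 then (-1 : ℤ) else 1) := by
      refine prod_congr rfl fun i hi => ?_
      have hio := hodd' i hi
      have hne : k ≠ i := fun h => hk (h ▸ hi)
      have hc : J((x k : ℤ) | x i) * J((x k : ℤ) | x i) = 1 := by
        rw [← pow_two]
        apply jacobiSym.sq_one
        have := hcop k (mem_insert_self k T) i (mem_insert_of_mem hi) hne
        simpa [Int.gcd_natCast_natCast] using this
      rw [← jacobiSym.quadratic_reciprocity_if (Nat.odd_iff.mp hio) (Nat.odd_iff.mp hko)]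
      by_cases h : x i % 4 = 3 ∧ x k % 4 = 3
      · rw [if_pos h, if_pos ⟨h.2, h.1⟩, neg_mul, hc]
      · rw [if_neg h, if_neg (fun h' => h ⟨h'.2, h'.1⟩), hc]
    rw [h2, nthree_insert hk]
    by_cases h : x k % 4 = 3
    · simp only [h, true_and, if_true]
      rw [prod_ite, prod_const, prod_const_one, mul_one, ← pow_add]
      change (-1 : ℤ) ^ (nthree T x + nthree T x * (nthree T x - 1) / 2) = _
      congr 1
      generalize nthree T x = a
      rw [← Finset.sum_range_id_mul_two, ← Finset.sum_range_id_mul_two]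
      rw [Nat.mul_div_cancel _ (by norm_num), Nat.mul_div_cancel _ (by norm_num),
        sum_range_succ, add_comm]
    · simp [h]

end Pool.Agent.Helper1.Recip
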