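import Pool.Agent.Helper1.Recip.Basic

/-!
Reciprocity obstructions for the equation `∑ 1/x_i + 1/∏ x_i = 1`: the two main cases.
Helper file for problem MP_6434ae_nt.
-/

open Finset

namespace Pool.Agent.Helper1.Recip

open scoped NumberTheorySymbols

variable {ι : Type*} [DecidableEq ι]

/-- Product over all but one index. -/
def cop (T : Finset ι) (x : ι → ℕ) (i : ι) : ℕ := ∏ j ∈ T.erase i, x j

theorem mul_cop {T : Finset ι} (x : ι → ℕ) {i : ι} (hi : i ∈ T) :
    x i * cop T x i = ∏ j ∈ T, x j := mul_prod_erase T x hi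

theorem neg_one_pow_inj_mod {a b : ℕ} (h : (-1 : ℤ) ^ a = (-1) ^ b) : a % 2 = b % 2 := by
  rcases Nat.even_or_odd a with ha | ha <;> rcases Nat.even_or_odd b with hb | hb
  · rw [Nat.even_iff.mp ha, Nat.even_iff.mp hb]
  · rw [ha.neg_one_pow, hb.neg_one_pow] at h; norm_num at h
  · rw [ha.neg_one_pow, hb.neg_one_pow] at h; norm_num at h
  · rw [Nat.odd_iff.mp ha, Nat.odd_iff.mp hb]

theorem tri_mod (a : ℕ) : (a * (a - 1) / 2) % 2 = if a % 4 = 2 ∨ a % 4 = 3 then 1 else 0 := by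
  obtain ⟨q, r, hr, rfl⟩ : ∃ q r, r < 4 ∧ a = 4 * q + r :=
    ⟨a / 4, a % 4, Nat.mod_lt _ (by norm_num), by omega⟩
  have key : ∀ b : ℕ, b * (b - 1) / 2 = ∑ i ∈ range b, i := fun b => by
    rw [← Finset.sum_range_id_mul_two, Nat.mul_div_cancel _ (by norm_num)]
  rw [key]
  have h4 : ∀ q : ℕ, (∑ i ∈ range (4 * q), i) % 2 = 0 := by
    intro q
    induction q with
    | zero => simp
    | succ n ih =>
      rw [show 4 * (n + 1) = 4 * n + 1 + 1 + 1 + 1 by ring, sum_range_succ, sum_range_succ,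
        sum_range_succ, sum_range_succ]
      omega
  have hq := h4 q
  interval_cases r
  · split_ifs <;> omega
  · rw [sum_range_succ]; split_ifs <;> omega
  · rw [sum_range_succ, sum_range_succ]; split_ifs <;> omega
  · rw [sum_range_succ, sum_range_succ, sum_range_succ]; split_ifs <;> omega

theorem chi4_eq (N a : ℕ) (h0 : a % 2 = 0 → N % 4 = 1) (h1 : a % 2 = 1 → N % 4 = 3) :
    ZMod.χ₄ N = (-1) ^ a := by
  rcases Nat.even_or_odd a with ha | ha
  · rw [ha.neg_one_pow, ZMod.χ₄_nat_one_mod_four (h0 (Nat.even_iff.mp ha))]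
  · rw [ha.neg_one_pow, ZMod.χ₄_nat_three_mod_four (h1 (Nat.odd_iff.mp ha))]

/-- If `d` times the product over the other indices is `-1` modulo each `x_i`, then
`J(d | ∏ x) (-1)^(a(a-1)/2) = (-1)^a`. -/
theorem reciprocity_sign (T : Finset ι) (x : ι → ℕ) (d : ℕ) (hodd : ∀ i ∈ T, Odd (x i))
    (hcop : ∀ i ∈ T, ∀ j ∈ T, i ≠ j → Nat.Coprime (x i) (x j))
    (hd : ∀ i ∈ T, x i ∣ d * cop T x i + 1) :
    J((d : ℤ) | ∏ i ∈ T, x i) * (-1) ^ (nthree T x * (nthree T x - 1) / 2) =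
      (-1) ^ nthree T x := by
  have hN : Odd (∏ i ∈ T, x i) := by
    rcases Nat.mod_two_eq_zero_or_one (nthree T x) with h | h
    · have := ((sum_prod T x hodd).1 h).1
      rw [Nat.odd_iff]; omega
    · have := ((sum_prod T x hodd).2 h).1
      rw [Nat.odd_iff]; omega
  have h1 : J(-1 | ∏ i ∈ T, x i) = (-1) ^ nthree T x := by
    rw [jacobiSym.at_neg_one hN]
    exact chi4_eq _ _ (fun h => ((sum_prod T x hodd).1 h).1) (fun h => ((sum_prod T x hodd).2 h).1)
  rw [← h1, ← family T x hodd hcop, prod_right _ T x hodd, prod_right _ T x hodd,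
    ← prod_mul_distrib]
  refine prod_congr rfl fun i hi => ?_
  rw [← prod_left, ← jacobiSym.mul_left]
  apply jacobiSym.mod_left'
  have h2 : (x i : ℤ) ∣ (d : ℤ) * ((cop T x i : ℕ) : ℤ) - (-1) := by
    have := hd i hi
    rw [sub_neg_eq_add]
    exact_mod_cast this
  exact Int.emod_eq_emod_iff_emod_sub_eq_zero.mpr (Int.emod_eq_zero_of_dvd h2)

theorem dvd_cop {T : Finset ι} (x : ι → ℕ) {i j : ι} (hi : i ∈ T) (hij : i ≠ j) :
    x i ∣ cop T x j := dvd_prod_of_mem x (mem_erase.mpr ⟨hij, hi⟩)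

theorem divis (T : Finset ι) (x : ι → ℕ) (d e : ℕ)
    (heq : d * ∑ i ∈ T, cop T x i + e + 1 = d * ∏ i ∈ T, x i) (he : ∀ i ∈ T, x i ∣ e) :
    ∀ i ∈ T, x i ∣ d * cop T x i + 1 := by
  intro i hi
  have h1 : x i ∣ d * ∏ i ∈ T, x i := dvd_mul_of_dvd_right (dvd_prod_of_mem x hi) _
  rw [← heq, ← add_sum_erase T _ hi, mul_add] at h1
  have h2 : x i ∣ d * ∑ j ∈ T.erase i, cop T x j + e := by
    refine dvd_add (dvd_mul_of_dvd_right (dvd_sum fun j hj => ?_) _) (he i hi)
    exact dvd_cop x hi (ne_of_mem_erase hj).symm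
  have h3 : d * cop T x i + d * ∑ j ∈ T.erase i, cop T x j + e + 1 =
      (d * cop T x i + 1) + (d * ∑ j ∈ T.erase i, cop T x j + e) := by ring
  rw [h3] at h1
  exact (Nat.dvd_add_iff_left h2).mpr h1

theorem coprime_of (T : Finset ι) (x : ι → ℕ) (d : ℕ) (hd : ∀ i ∈ T, x i ∣ d * cop T x i + 1) :
    ∀ i ∈ T, ∀ j ∈ T, i ≠ j → Nat.Coprime (x i) (x j) := by
  intro i hi j hj hij
  have h1 : Nat.gcd (x i) (x j) ∣ d * cop T x i + 1 := (Nat.gcd_dvd_left _ _).trans (hd i hi)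
  have h2 : Nat.gcd (x i) (x j) ∣ d * cop T x i :=
    (Nat.gcd_dvd_right _ _).trans (dvd_mul_of_dvd_right (dvd_cop x hj hij.symm) _)
  exact Nat.dvd_one.mp ((Nat.dvd_add_iff_right h2).mpr h1)

theorem odd_cop (T : Finset ι) (x : ι → ℕ) (hodd : ∀ i ∈ T, Odd (x i)) (i : ι) :
    Odd (cop T x i) := by
  unfold cop
  apply Finset.prod_induction _ _ (fun a b => Odd.mul) odd_one
  exact fun j hj => hodd j (mem_of_mem_erase hj)

theorem sum_cop_mul (T : Finset ι) (x : ι → ℕ) (hodd : ∀ i ∈ T, Odd (x i)) :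
    ((∑ i ∈ T, cop T x i) * ∏ i ∈ T, x i) % 8 = (∑ i ∈ T, x i) % 8 := by
  rw [sum_mul, Finset.sum_nat_mod, Finset.sum_nat_mod T 8 x]
  congr 1
  refine sum_congr rfl fun i hi => ?_
  rw [← mul_cop x hi]
  obtain ⟨k, hk⟩ := odd_cop T x hodd i
  have h1 : cop T x i * (x i * cop T x i) = x i * (cop T x i * cop T x i) := by ring
  have h2 : (cop T x i * cop T x i) % 8 = 1 := by
    have h3 : cop T x i % 8 = 1 ∨ cop T x i % 8 = 3 ∨ cop T x i % 8 = 5 ∨ cop T x i % 8 = 7 := by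
      omega
    rw [Nat.mul_mod]
    rcases h3 with h | h | h | h <;> rw [h]
  rw [h1, Nat.mul_mod, h2, mul_one, Nat.mod_mod]

/-- All `x_i` odd. -/
theorem odd_case (T : Finset ι) (x : ι → ℕ) (hodd : ∀ i ∈ T, Odd (x i))
    (heq : ∑ i ∈ T, cop T x i + 1 = ∏ i ∈ T, x i) :
    8 ∣ T.card ∧ (nthree T x % 4 = 0 ∨ nthree T x % 4 = 3) := by
  have hdiv := divis T x 1 0 (by simpa using heq) (fun i _ => dvd_zero _)
  have hcop := coprime_of T x 1 hdiv
  have hsign := reciprocity_sign T x 1 hodd hcop hdiv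
  have hs := sum_cop_mul T x hodd
  obtain ⟨sp1, sp2⟩ := sum_prod T x hodd
  have h1 : (nthree T x * (nthree T x - 1) / 2) % 2 = nthree T x % 2 := by
    apply neg_one_pow_inj_mod
    simpa using hsign
  rw [tri_mod] at h1
  have ha : nthree T x % 4 = 0 ∨ nthree T x % 4 = 3 := by
    split_ifs at h1 <;> omega
  refine ⟨?_, ha⟩
  generalize hA : (∑ i ∈ T, cop T x i) = C at *
  generalize (∏ i ∈ T, x i) = N at *
  generalize (∑ i ∈ T, x i) = S at *
  generalize nthree T x = a at *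
  generalize T.card = t at *
  have h8 : (C * N + N) % 8 = (N * N) % 8 := by
    rw [← heq]; ring_nf
  have hN : (N * N) % 8 = 1 := by
    have h3 : N % 8 = 1 ∨ N % 8 = 3 ∨ N % 8 = 5 ∨ N % 8 = 7 := by
      rcases ha with ha | ha
      · have := (sp1 (by omega)).1; omega
      · have := (sp2 (by omega)).1; omega
    rw [Nat.mul_mod]
    rcases h3 with h | h | h | h <;> rw [h]
  rcases ha with ha | ha
  · have := (sp1 (by omega)).2
    omega
  · have := (sp2 (by omega)).2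
    omega

/-- One of the numbers is two, the others (indexed by `T`) are odd. -/
theorem even_case (T : Finset ι) (x : ι → ℕ) (hodd : ∀ i ∈ T, Odd (x i))
    (heq : 2 * ∑ i ∈ T, cop T x i + 1 = ∏ i ∈ T, x i) :
    (∏ i ∈ T, x i) % 16 = (2 * T.card + 1) % 16 ∧ none1 T x % 4 = 0 := by
  have hdiv := divis T x 2 (∏ i ∈ T, x i) (by omega) (fun i hi => dvd_prod_of_mem x hi)
  have hcop := coprime_of T x 2 hdiv
  have hsign := reciprocity_sign T x 2 hodd hcop hdiv
  have hs := sum_cop_mul T x hodd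
  obtain ⟨sp1, sp2⟩ := sum_prod T x hodd
  have hcard := card_eq_add T x hodd
  have hNodd : Odd (∏ i ∈ T, x i) := by
    rcases Nat.mod_two_eq_zero_or_one (nthree T x) with h | h
    · have := (sp1 h).1
      rw [Nat.odd_iff]; omega
    · have := (sp2 h).1
      rw [Nat.odd_iff]; omega
  have htri := tri_mod (nthree T x)
  rw [Nat.cast_ofNat, jacobiSym.at_two hNodd, ZMod.χ₈_nat_eq_if_mod_eight] at hsign
  generalize hA : (∑ i ∈ T, cop T x i) = C at *
  generalize (∏ i ∈ T, x i) = N at *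
  generalize (∑ i ∈ T, x i) = S at *
  generalize nthree T x = a at *
  generalize none1 T x = b at *
  generalize T.card = t at *
  generalize a * (a - 1) / 2 = u at *
  have hN8 : N % 8 = (1 + 2 * a) % 8 := by
    rw [Nat.odd_iff] at hNodd
    have hu : (-1 : ℤ) ^ u = if a % 4 = 2 ∨ a % 4 = 3 then -1 else 1 := by
      split_ifs at htri ⊢
      · exact (Nat.odd_iff.mpr htri).neg_one_pow
      · exact (Nat.even_iff.mpr htri).neg_one_pow
    have ha' : (-1 : ℤ) ^ a = if a % 2 = 1 then -1 else 1 := by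
      split_ifs with h
      · exact (Nat.odd_iff.mpr h).neg_one_pow
      · exact (Nat.even_iff.mpr (by omega)).neg_one_pow
    rw [hu, ha', if_neg (by omega)] at hsign
    have h4 : a % 4 = 0 ∨ a % 4 = 1 ∨ a % 4 = 2 ∨ a % 4 = 3 := by omega
    rcases h4 with h | h | h | h
    · have := (sp1 (by omega)).1
      split_ifs at hsign <;> omega
    · have := (sp2 (by omega)).1
      split_ifs at hsign <;> omega
    · have := (sp1 (by omega)).1
      split_ifs at hsign <;> omega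
    · have := (sp2 (by omega)).1
      split_ifs at hsign <;> omega
  have h16 : 2 * (C * N) + N = N * N := by
    nth_rewrite 3 [← heq]; ring
  have hNN : (N * N) % 16 = (1 + 4 * a + 4 * a * a) % 16 := by
    obtain ⟨k, hk⟩ : ∃ k : ℤ, (N : ℤ) = 1 + 2 * a + 8 * k := ⟨((N : ℤ) - (1 + 2 * a)) / 8, by omega⟩
    have h5 : (N : ℤ) * N = (1 + 4 * a + 4 * a * a) + 16 * (k * (1 + 2 * a) + 4 * k * k) := by
      rw [hk]; ring
    zify
    rw [h5]
    omega
  have haa : (4 * a * a) % 16 = if a % 2 = 0 then 0 else 4 := by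
    have h4 : a % 4 = 0 ∨ a % 4 = 1 ∨ a % 4 = 2 ∨ a % 4 = 3 := by omega
    rw [mul_assoc, Nat.mul_mod]
    have h6 : (a * a) % 4 = (a % 4) * (a % 4) % 4 := Nat.mul_mod _ _ _
    rcases h4 with h | h | h | h <;> rw [h] at h6 <;> split_ifs <;> omega
  rcases Nat.mod_two_eq_zero_or_one a with ha | ha
  · have h7 := sp1 ha
    rw [if_pos ha] at haa
    constructor <;> omega
  · have h7 := sp2 ha
    rw [if_neg (by omega)] at haa
    constructor <;> omega

end Pool.Agent.Helper1.Recip
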